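import Pool.Agent.H7.V.W677.Mar1

set_option autoImplicit false

/-! # Localised exponential moments of functions with values in a strip of width `π` -/

namespace Pool.Agent.W677.Mar

open Complex Metric Set Filter Topology MeasureTheory

theorem ball_sub_unit {ρ : ℝ} (hρ0 : 0 ≤ ρ) (φ : ℝ) :
    ball (pt ρ φ) (1 - ρ) ⊆ ball 0 1 := by
  intro x hx
  rw [mem_ball_iff_norm] at hx
  rw [mem_ball_zero_iff]
  have h1 := norm_add_le (x - pt ρ φ) (pt ρ φ)
  rw [sub_add_cancel, norm_pt ρ φ hρ0] at h1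
  linarith

/-- slow variation of a positive harmonic function on a circle -/
theorem slow {P : ℂ → ℂ} (hP : DifferentiableOn ℂ P (ball 0 1))
    (hpos : ∀ x ∈ ball (0 : ℂ) 1, 0 < (P x).re) {ρ : ℝ} (hρ0 : 0 ≤ ρ) (hρ : ρ < 1) {θ φ : ℝ}
    (h : |θ - φ| ≤ (1 - ρ) / 2) : (P (pt ρ θ)).re ≤ 3 * (P (pt ρ φ)).re := by
  have hs := ball_sub_unit hρ0 φ
  apply harn (δ := 1 - ρ) (by linarith) (hP.mono hs) (fun x hx => hpos x (hs hx))
  have h1 := norm_pt_sub_angle ρ θ φ hρ0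
  have h2 : ρ * |θ - φ| ≤ 1 * |θ - φ| := mul_le_mul_of_nonneg_right hρ.le (abs_nonneg _)
  linarith

section

variable {g : ℂ → ℂ} {R₁ a : ℝ}

theorem cos_pos' (ha0 : 0 ≤ a) (ha : a < 1) : 0 < Real.cos (a * (Real.pi / 2)) := by
  have hpi := Real.pi_pos
  apply Real.cos_pos_of_mem_Ioo
  constructor <;> nlinarith

/-- real part of `exp (ε a g)` -/
theorem re_exp_ge (ha0 : 0 ≤ a) (ha : a < 1) {ε : ℝ} (hε : |ε| = 1) {z : ℂ}
    (hz : |z.im| ≤ Real.pi / 2) :
    Real.cos (a * (Real.pi / 2)) * Real.exp (ε * a * z.re) ≤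
      (Complex.exp (((ε * a : ℝ) : ℂ) * z)).re := by
  have hpi := Real.pi_pos
  rw [Complex.exp_re, Complex.re_ofReal_mul, Complex.im_ofReal_mul, mul_comm]
  refine mul_le_mul_of_nonneg_left ?_ (Real.exp_pos _).le
  rw [← Real.cos_abs (ε * a * z.im)]
  apply Real.cos_le_cos_of_nonneg_of_le_pi (abs_nonneg _)
  · nlinarith
  · rw [abs_mul, abs_mul, hε, one_mul, abs_of_nonneg ha0]
    exact mul_le_mul_of_nonneg_left hz ha0

theorem re_exp_le {ε : ℝ} {z : ℂ} :
    (Complex.exp (((ε * a : ℝ) : ℂ) * z)).re ≤ Real.exp (ε * a * z.re) := by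
  refine (re_le_norm _).trans (le_of_eq ?_)
  rw [Complex.norm_exp, Complex.re_ofReal_mul]

/-- one sided moment -/
theorem moment (hR₁ : 1 < R₁) (hg : DifferentiableOn ℂ g (ball 0 R₁))
    (him : ∀ z ∈ ball (0 : ℂ) R₁, |(g z).im| ≤ Real.pi / 2) (ha0 : 0 ≤ a) (ha : a < 1)
    {ε : ℝ} (hε : |ε| = 1)
    {ρ : ℝ} (hρ0 : 0 ≤ ρ) (hρ : ρ < 1)
    {W : ℝ → ℝ} (hW : Continuous W) (hW0 : ∀ θ, 0 ≤ W θ) (hWp : Function.Periodic W (2 * Real.pi))
    (hWs : ∀ θ φ : ℝ, |θ - φ| ≤ (1 - ρ) / 2 → W θ ≤ 3 * W φ) :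
    ∫ θ in (0 : ℝ)..(2 * Real.pi),
      W θ * Real.exp (ε * a * ((g (pt 1 θ)).re - (g (pt ρ θ)).re)) ≤
      81 * Real.pi / (2 * Real.cos (a * (Real.pi / 2)) ^ 2) *
        ∫ θ in (0 : ℝ)..(2 * Real.pi), W θ := by
  have hpi := Real.pi_pos
  obtain ⟨κ, hκ⟩ : ∃ κ, κ = Real.cos (a * (Real.pi / 2)) := ⟨_, rfl⟩
  have hκ0 : 0 < κ := hκ ▸ cos_pos' ha0 ha
  rw [← hκ]
  have hsub : ball (0 : ℂ) 1 ⊆ ball 0 R₁ := ball_subset_ball hR₁.le
  -- the positive harmonic functions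
  have hf : ∀ ε' : ℝ, DifferentiableOn ℂ (fun z => Complex.exp (((ε' * a : ℝ) : ℂ) * g z)) (ball 0 R₁) :=
    fun ε' => ((hg.const_mul _)).cexp
  have hfpos : ∀ ε' : ℝ, |ε'| = 1 → ∀ z ∈ ball (0 : ℂ) R₁,
      0 < (Complex.exp (((ε' * a : ℝ) : ℂ) * g z)).re := by
    intro ε' hε' z hz
    refine lt_of_lt_of_le ?_ (re_exp_ge ha0 ha hε' (him z hz))
    exact mul_pos (hκ ▸ hκ0) (Real.exp_pos _)
  have hsph : ∀ (r : ℝ), 0 ≤ r → r ≤ 1 → ∀ θ : ℝ, pt r θ ∈ ball (0 : ℂ) R₁ := by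
    intro r hr0 hr1 θ
    rw [mem_ball_zero_iff, norm_pt r θ hr0]
    linarith
  have hgr : ∀ (r : ℝ), 0 ≤ r → r ≤ 1 → Continuous fun θ : ℝ => (g (pt r θ)).re := by
    intro r hr0 hr1
    exact continuous_re.comp (hg.continuousOn.comp_continuous (continuous_pt r) (hsph r hr0 hr1))
  have hε' : |-ε| = 1 := by rw [abs_neg]; exact hε
  -- the weight
  set V : ℝ → ℝ := fun θ => W θ * Real.exp (-ε * a * (g (pt ρ θ)).re) with hV
  have hVc : Continuous V := hW.mul (Real.continuous_exp.comp (continuous_const.mul (hgr ρ hρ0 hρ.le)))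
  have hV0 : ∀ θ, 0 ≤ V θ := fun θ => mul_nonneg (hW0 θ) (Real.exp_pos _).le
  have hVp : Function.Periodic V (2 * Real.pi) := by
    intro θ
    simp only [hV, pt_periodic ρ θ, hWp θ]
  have hVs : ∀ θ φ : ℝ, |θ - φ| ≤ (1 - ρ) / 2 → V θ ≤ (9 / κ) * V φ := by
    intro θ φ h
    have h1 := slow (P := fun z => Complex.exp (((-ε * a : ℝ) : ℂ) * g z)) ((hf (-ε)).mono hsub)
      (fun x hx => hfpos (-ε) hε' x (hsub hx)) hρ0 hρ h
    have h2 := re_exp_ge ha0 ha hε' (him _ (hsph ρ hρ0 hρ.le θ))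
    rw [← hκ] at h2
    have h3 := re_exp_le (a := a) (ε := -ε) (z := g (pt ρ φ))
    have h4 : Real.exp (-ε * a * (g (pt ρ θ)).re) ≤ 3 / κ * Real.exp (-ε * a * (g (pt ρ φ)).re) := by
      rw [div_mul_eq_mul_div, le_div_iff₀ hκ0, mul_comm]
      exact (h2.trans h1).trans (by linarith)
    calc V θ ≤ (3 * W φ) * (3 / κ * Real.exp (-ε * a * (g (pt ρ φ)).re)) :=
          mul_le_mul (hWs θ φ h) h4 (Real.exp_pos _).le (by have := hW0 φ; linarith)
      _ = (9 / κ) * V φ := by simp only [hV]; ring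
  have key := loc hR₁ (hf ε) (fun z hz => (hfpos ε hε z hz).le) hρ0 hρ hVc hV0 hVp hVs (by positivity)
  have hL : ∫ θ in (0 : ℝ)..(2 * Real.pi),
      κ * (W θ * Real.exp (ε * a * ((g (pt 1 θ)).re - (g (pt ρ θ)).re))) ≤
      ∫ θ in (0 : ℝ)..(2 * Real.pi), V θ * (Complex.exp (((ε * a : ℝ) : ℂ) * g (pt 1 θ))).re := by
    apply intervalIntegral.integral_mono_on (by positivity)
    · apply Continuous.intervalIntegrable
      exact continuous_const.mul (hW.mul (Real.continuous_exp.comp (continuous_const.mul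
        ((hgr 1 zero_le_one le_rfl).sub (hgr ρ hρ0 hρ.le)))))
    · apply Continuous.intervalIntegrable
      exact hVc.mul (continuous_re.comp ((hf ε).continuousOn.comp_continuous (continuous_pt 1)
        (hsph 1 zero_le_one le_rfl)))
    · intro θ _
      have h2 := re_exp_ge ha0 ha hε (him _ (hsph 1 zero_le_one le_rfl θ))
      rw [← hκ] at h2
      have h3 := mul_le_mul_of_nonneg_left h2 (hV0 θ)
      refine le_trans (le_of_eq ?_) h3
      simp only [hV]
      have e : Real.exp (ε * a * ((g (pt 1 θ)).re - (g (pt ρ θ)).re)) =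
          Real.exp (-ε * a * (g (pt ρ θ)).re) * Real.exp (ε * a * (g (pt 1 θ)).re) := by
        rw [← Real.exp_add]
        congr 1
        ring
      rw [e]
      ring
  have hR : ∫ φ in (0 : ℝ)..(2 * Real.pi), V φ * (Complex.exp (((ε * a : ℝ) : ℂ) * g (pt ρ φ))).re ≤
      ∫ θ in (0 : ℝ)..(2 * Real.pi), W θ := by
    apply intervalIntegral.integral_mono_on (by positivity)
    · apply Continuous.intervalIntegrable
      exact hVc.mul (continuous_re.comp ((hf ε).continuousOn.comp_continuous (continuous_pt ρ)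
        (hsph ρ hρ0 hρ.le)))
    · exact hW.intervalIntegrable _ _
    · intro φ _
      have h3 := mul_le_mul_of_nonneg_left (re_exp_le (a := a) (ε := ε) (z := g (pt ρ φ))) (hV0 φ)
      refine h3.trans (le_of_eq ?_)
      simp only [hV]
      rw [mul_assoc, ← Real.exp_add]
      have : -ε * a * (g (pt ρ φ)).re + ε * a * (g (pt ρ φ)).re = 0 := by ring
      rw [this, Real.exp_zero, mul_one]
  rw [intervalIntegral.integral_const_mul] at hL
  have h9 := (hL.trans key).trans (mul_le_mul_of_nonneg_left hR (by positivity))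
  rw [← mul_le_mul_iff_right₀ hκ0]
  refine h9.trans (le_of_eq ?_)
  field_simp
  ring

/-- the localised exponential moment -/
theorem strip (hR₁ : 1 < R₁) (hg : DifferentiableOn ℂ g (ball 0 R₁))
    (him : ∀ z ∈ ball (0 : ℂ) R₁, |(g z).im| ≤ Real.pi / 2) (ha0 : 0 ≤ a) (ha : a < 1)
    {ρ : ℝ} (hρ0 : 0 ≤ ρ) (hρ : ρ < 1)
    {W : ℝ → ℝ} (hW : Continuous W) (hW0 : ∀ θ, 0 ≤ W θ) (hWp : Function.Periodic W (2 * Real.pi))
    (hWs : ∀ θ φ : ℝ, |θ - φ| ≤ (1 - ρ) / 2 → W θ ≤ 3 * W φ) :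
    ∫ θ in (0 : ℝ)..(2 * Real.pi), W θ * Real.exp (a * ‖g (pt 1 θ) - g (pt ρ θ)‖) ≤
      Real.exp (a * Real.pi) * (81 * Real.pi / Real.cos (a * (Real.pi / 2)) ^ 2) *
        ∫ θ in (0 : ℝ)..(2 * Real.pi), W θ := by
  have hpi := Real.pi_pos
  have h1 := moment hR₁ hg him ha0 ha (ε := 1) (by simp) hρ0 hρ hW hW0 hWp hWs
  have h2 := moment hR₁ hg him ha0 ha (ε := -1) (by simp) hρ0 hρ hW hW0 hWp hWs
  obtain ⟨κ, hκ⟩ : ∃ κ, κ = Real.cos (a * (Real.pi / 2)) := ⟨_, rfl⟩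
  have hκ0 : 0 < κ := hκ ▸ cos_pos' ha0 ha
  rw [← hκ] at h1 h2 ⊢
  have hsph : ∀ (r : ℝ), 0 ≤ r → r ≤ 1 → ∀ θ : ℝ, pt r θ ∈ ball (0 : ℂ) R₁ := by
    intro r hr0 hr1 θ
    rw [mem_ball_zero_iff, norm_pt r θ hr0]
    linarith
  have hgc : ∀ (r : ℝ), 0 ≤ r → r ≤ 1 → Continuous fun θ : ℝ => g (pt r θ) := by
    intro r hr0 hr1
    exact hg.continuousOn.comp_continuous (continuous_pt r) (hsph r hr0 hr1)
  have hgr : ∀ (r : ℝ), 0 ≤ r → r ≤ 1 → Continuous fun θ : ℝ => (g (pt r θ)).re :=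
    fun r hr0 hr1 => continuous_re.comp (hgc r hr0 hr1)
  have hc : ∀ ε : ℝ, Continuous fun θ : ℝ =>
      W θ * Real.exp (ε * a * ((g (pt 1 θ)).re - (g (pt ρ θ)).re)) := by
    intro ε
    exact hW.mul (Real.continuous_exp.comp (continuous_const.mul
        ((hgr 1 zero_le_one le_rfl).sub (hgr ρ hρ0 hρ.le))))
  have hpt : ∫ θ in (0 : ℝ)..(2 * Real.pi), W θ * Real.exp (a * ‖g (pt 1 θ) - g (pt ρ θ)‖) ≤
      ∫ θ in (0 : ℝ)..(2 * Real.pi), Real.exp (a * Real.pi) *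
        (W θ * Real.exp (1 * a * ((g (pt 1 θ)).re - (g (pt ρ θ)).re)) +
         W θ * Real.exp (-1 * a * ((g (pt 1 θ)).re - (g (pt ρ θ)).re))) := by
    apply intervalIntegral.integral_mono_on (by positivity)
    · apply Continuous.intervalIntegrable
      exact hW.mul (Real.continuous_exp.comp (continuous_const.mul
        ((hgc 1 zero_le_one le_rfl).sub (hgc ρ hρ0 hρ.le)).norm))
    · apply Continuous.intervalIntegrable
      exact continuous_const.mul ((hc 1).add (hc (-1)))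
    · intro θ _
      obtain ⟨z, hz⟩ : ∃ z, z = g (pt 1 θ) - g (pt ρ θ) := ⟨_, rfl⟩
      have hre : (g (pt 1 θ)).re - (g (pt ρ θ)).re = z.re := by rw [hz, sub_re]
      have himz : |z.im| ≤ Real.pi := by
        rw [hz, sub_im]
        have a1 := him _ (hsph 1 zero_le_one le_rfl θ)
        have a2 := him _ (hsph ρ hρ0 hρ.le θ)
        have := abs_sub (g (pt 1 θ)).im (g (pt ρ θ)).im
        linarith
      rw [← hz, hre]
      have h3 : Real.exp (a * ‖z‖) ≤ Real.exp (a * Real.pi) * (Real.exp (1 * a * z.re) +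
          Real.exp (-1 * a * z.re)) := by
        have h4 : ‖z‖ ≤ |z.re| + Real.pi := (Complex.norm_le_abs_re_add_abs_im z).trans (by linarith)
        have h5 : Real.exp (a * |z.re|) ≤ Real.exp (1 * a * z.re) + Real.exp (-1 * a * z.re) := by
          rcases abs_choice z.re with h | h <;> rw [h]
          · have := (Real.exp_pos (-1 * a * z.re)).le
            rw [one_mul]
            linarith
          · have := (Real.exp_pos (1 * a * z.re)).le
            have e : a * -z.re = -1 * a * z.re := by ring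
            rw [e]
            linarith
        calc Real.exp (a * ‖z‖) ≤ Real.exp (a * Real.pi + a * |z.re|) := by
              apply Real.exp_le_exp.2
              nlinarith
          _ = Real.exp (a * Real.pi) * Real.exp (a * |z.re|) := Real.exp_add _ _
          _ ≤ _ := mul_le_mul_of_nonneg_left h5 (Real.exp_pos _).le
      calc W θ * Real.exp (a * ‖z‖) ≤ W θ * (Real.exp (a * Real.pi) * (Real.exp (1 * a * z.re) +
          Real.exp (-1 * a * z.re))) := mul_le_mul_of_nonneg_left h3 (hW0 θ)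
        _ = _ := by ring
  refine hpt.trans ?_
  rw [intervalIntegral.integral_const_mul, intervalIntegral.integral_add
    ((hc 1).intervalIntegrable _ _) ((hc (-1)).intervalIntegrable _ _), mul_assoc]
  refine mul_le_mul_of_nonneg_left ((add_le_add h1 h2).trans (le_of_eq ?_)) (Real.exp_pos _).le
  field_simp
  ring

end

end Pool.Agent.W677.Mar
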