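import Pool.Agent.H7.V.W677.MarG3
import Pool.Agent.H7.V.W677.Mar1
import Pool.Agent.H7.V.H792R2.SS.KB

set_option autoImplicit false

/-! # Bloch bounds -/

namespace Pool.Agent.W677.Mar

open Complex Metric Set Filter Topology MeasureTheory

theorem ball_sub' {w : ℂ} (hw : w ∈ ball (0 : ℂ) 1) : ball w (1 - ‖w‖) ⊆ ball 0 1 := by
  intro x hx
  rw [mem_ball_iff_norm] at hx
  rw [mem_ball_zero_iff]
  have h1 := norm_add_le (x - w) w
  rw [sub_add_cancel] at h1
  linarith

/-- Cauchy estimate on a half disc -/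
theorem cauchy_half {f : ℂ → ℂ} (hf : DifferentiableOn ℂ f (ball 0 1)) {w : ℂ}
    (hw : w ∈ ball (0 : ℂ) 1) {M : ℝ} (hM : ∀ x, ‖x - w‖ ≤ (1 - ‖w‖) / 2 → ‖f x‖ ≤ M) :
    ‖deriv f w‖ * (1 - ‖w‖) ≤ 2 * M := by
  have hn : ‖w‖ < 1 := mem_ball_zero_iff.1 hw
  have hδ : 0 < (1 - ‖w‖) / 2 := by linarith
  have hsub : closedBall w ((1 - ‖w‖) / 2) ⊆ ball 0 1 :=
    (closedBall_subset_ball (by linarith)).trans (ball_sub' hw)
  have h := Complex.norm_deriv_le_of_forall_mem_sphere_norm_le hδ (hf.diffContOnCl_ball hsub)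
    (fun x hx => hM x (by rw [mem_sphere_iff_norm] at hx; exact hx.le))
  rw [le_div_iff₀ hδ] at h
  linarith

/-- functions with values in a strip -/
theorem strip_bloch {g : ℂ → ℂ} (hg : DifferentiableOn ℂ g (ball 0 1))
    (him : ∀ z ∈ ball (0 : ℂ) 1, |(g z).im| ≤ Real.pi / 2) {w : ℂ} (hw : w ∈ ball (0 : ℂ) 1) :
    ‖deriv g w‖ * (1 - ‖w‖) ≤ 12 := by
  have hn : ‖w‖ < 1 := mem_ball_zero_iff.1 hw
  have hpi := Real.pi_pos
  set f : ℂ → ℂ := fun z => Complex.exp (((1 * (1 / 2) : ℝ) : ℂ) * g z) with hf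
  have hfd : DifferentiableOn ℂ f (ball 0 1) := (hg.const_mul _).cexp
  have hcos : 0 < Real.cos (1 / 2 * (Real.pi / 2)) := by
    apply Real.cos_pos_of_mem_Ioo
    constructor <;> nlinarith
  have hfpos : ∀ z ∈ ball (0 : ℂ) 1, 0 < (f z).re := by
    intro z hz
    have h1 := him z hz
    simp only [hf]
    rw [Complex.exp_re]
    apply mul_pos (Real.exp_pos _)
    apply Real.cos_pos_of_mem_Ioo
    rw [Complex.im_ofReal_mul]
    rw [abs_le] at h1
    constructor <;> nlinarith [h1.1, h1.2]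
  have hsub := ball_sub' hw
  have hM : ∀ x, ‖x - w‖ ≤ (1 - ‖w‖) / 2 → ‖f x‖ ≤ 3 * ‖f w‖ := by
    intro x hx
    have h1 := osc (P := f) (w := w) (δ := 1 - ‖w‖) (by linarith) (hfd.mono hsub)
      (fun y hy => hfpos y (hsub hy)) hx
    have h2 := norm_sub_norm_le (f x) (f w)
    have h3 := re_le_norm (f w)
    linarith
  have h1 := cauchy_half hfd hw hM
  have hd : deriv f w = f w * ((1 / 2 : ℝ) * deriv g w) := by
    have h2 := ((hg.differentiableAt (isOpen_ball.mem_nhds hw)).hasDerivAt.const_mul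
      (((1 * (1 / 2) : ℝ) : ℂ))).cexp
    rw [h2.deriv]
    simp only [hf]
    push_cast
    ring
  have hf0 : 0 < ‖f w‖ := norm_pos_iff.2 (Complex.exp_ne_zero _)
  rw [hd, norm_mul, norm_mul, Complex.norm_real, Real.norm_of_nonneg (by norm_num)] at h1
  have h2 : ‖f w‖ * (‖deriv g w‖ * (1 - ‖w‖)) ≤ ‖f w‖ * 12 := by nlinarith
  exact le_of_mul_le_mul_left h2 hf0

section

variable {Y H : ℂ → ℂ}

theorem goluzin_le (S : Sg Y H) {ζ : ℂ} (hζ : ζ ∈ ball (0 : ℂ) 1) :
    ‖H ζ‖ ≤ -Real.log (1 - ‖ζ‖) := by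
  have hn : ‖ζ‖ < 1 := mem_ball_zero_iff.1 hζ
  refine (goluzin S hζ).trans ?_
  apply neg_le_neg
  apply Real.log_le_log (by linarith)
  nlinarith [norm_nonneg ζ]

/-- the Bloch bound for `log ψ'` -/
theorem H_bloch (S : Sg Y H) {w : ℂ} (hw : w ∈ ball (0 : ℂ) 1) :
    ‖deriv H w‖ * (1 - ‖w‖) ≤ 6 := by
  have hn : ‖w‖ < 1 := mem_ball_zero_iff.1 hw
  rcases lt_or_ge ‖w‖ (1 / 2) with h | h
  · have hsub : closedBall w (1 / 4) ⊆ ball 0 1 := by
      intro x hx
      rw [mem_closedBall_iff_norm] at hx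
      rw [mem_ball_zero_iff]
      have h1 := norm_add_le (x - w) w
      rw [sub_add_cancel] at h1
      linarith
    have h1 := Complex.norm_deriv_le_of_forall_mem_sphere_norm_le (c := w) (R := 1 / 4) (C := 1)
      (by norm_num) (S.dH.diffContOnCl_ball hsub) (by
        intro x hx
        rw [mem_sphere_iff_norm] at hx
        have h2 := norm_add_le (x - w) w
        rw [sub_add_cancel, hx] at h2
        have hx1 : x ∈ ball (0 : ℂ) 1 := by rw [mem_ball_zero_iff]; linarith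
        refine (goluzin S hx1).trans ?_
        have h3 : Real.exp (-1) ≤ 1 - ‖x‖ ^ 2 := by
          have h4 : ‖x‖ ^ 2 ≤ 9 / 16 := by nlinarith [norm_nonneg x]
          have h5 := Real.exp_one_gt_d9
          have h6 : Real.exp (-1) = (Real.exp 1)⁻¹ := Real.exp_neg 1
          have h7 : (Real.exp 1)⁻¹ ≤ (2.7 : ℝ)⁻¹ := inv_anti₀ (by norm_num) (by linarith)
          rw [h6]
          norm_num at h7 ⊢
          linarith
        have h4 := Real.log_le_log (Real.exp_pos _) h3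
        rw [Real.log_exp] at h4
        linarith)
    have h2 : ‖deriv H w‖ ≤ 4 := by
      refine h1.trans (by norm_num)
    nlinarith [norm_nonneg w, norm_nonneg (deriv H w)]
  · have hw0 : w ≠ 0 := by
      rw [← norm_pos_iff]
      linarith
    have hδ : 0 < 1 - ‖w‖ := by linarith
    have hsub := ball_sub' hw
    have hsub0 : ball w (1 - ‖w‖) ⊆ ball 0 1 \ {0} := by
      intro x hx
      refine ⟨hsub hx, ?_⟩
      intro h0
      rw [mem_singleton_iff] at h0
      rw [h0, mem_ball_iff_norm, zero_sub, norm_neg] at hx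
      linarith
    set G : ℂ → ℂ := fun z => Y z / z with hG
    have hGd : DifferentiableOn ℂ G (ball 0 1 \ {0}) := by
      intro z hz
      have h1 : DifferentiableAt ℂ Y z := S.G.diff.differentiableAt (isOpen_ball.mem_nhds hz.1)
      exact (h1.div differentiableAt_id (by simpa using hz.2)).differentiableWithinAt
    have hop : IsOpen (ball (0 : ℂ) 1 \ {0}) := isOpen_ball.sdiff isClosed_singleton
    obtain ⟨k1, k2⟩ := Pool.Agent.H792R2.SS.t_KB G w (1 - ‖w‖) hδ (hGd.mono hsub0)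
      (S.G.inj.mono hsub0)
    have hwm : w ∈ ball (0 : ℂ) 1 \ {0} := ⟨hw, hw0⟩
    -- exp H = - z² G'
    have hexp : ∀ z ∈ ball (0 : ℂ) 1 \ {0}, Complex.exp (H z) = -(z ^ 2 * deriv G z) := by
      intro z hz
      have hz0 : z ≠ 0 := hz.2
      have h1 : HasDerivAt Y (deriv Y z) z :=
        (S.G.diff.differentiableAt (isOpen_ball.mem_nhds hz.1)).hasDerivAt
      have h2 := (h1.div (hasDerivAt_id z) hz0).deriv
      have h3 : deriv G z = (deriv Y z * z - Y z * 1) / z ^ 2 := h2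
      rw [S.eq z hz.1, h3]
      field_simp
      ring
    have hG'd : HasDerivAt (deriv G) (deriv (deriv G) w) w :=
      (((hGd.deriv hop) w hwm).differentiableAt (hop.mem_nhds hwm)).hasDerivAt
    have hHd : HasDerivAt H (deriv H w) w :=
      (S.dH.differentiableAt (isOpen_ball.mem_nhds hw)).hasDerivAt
    have e1 := hHd.cexp
    have e2 : HasDerivAt (fun z => -(z ^ 2 * deriv G z))
        (-(2 * w * deriv G w + w ^ 2 * deriv (deriv G) w)) w := by
      have := ((hasDerivAt_pow 2 w).mul hG'd).neg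
      refine this.congr_deriv ?_
      push_cast
      ring
    have e3 : (fun z => Complex.exp (H z)) =ᶠ[𝓝 w] fun z => -(z ^ 2 * deriv G z) := by
      filter_upwards [hop.mem_nhds hwm] with z hz using hexp z hz
    have e4 := (e1.congr_of_eventuallyEq e3.symm).unique e2
    rw [hexp w hwm] at e4
    have e5 : deriv H w = 2 / w + deriv (deriv G) w / deriv G w := by
      field_simp
      have hw2 : w ≠ 0 := hw0
      have e6 : w * (deriv G w * w * deriv H w) =
          w * (2 * deriv G w + deriv (deriv G) w * w) := by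
        linear_combination -e4
      have e7 := mul_left_cancel₀ hw2 e6
      linear_combination e7
    have hG0 : 0 < ‖deriv G w‖ := norm_pos_iff.2 k1
    have e6 : ‖deriv H w‖ ≤ 2 / ‖w‖ + ‖deriv (deriv G) w‖ / ‖deriv G w‖ := by
      rw [e5]
      refine (norm_add_le _ _).trans (le_of_eq ?_)
      rw [norm_div, norm_div, Complex.norm_ofNat]
    have e7 : ‖deriv (deriv G) w‖ / ‖deriv G w‖ * (1 - ‖w‖) ≤ 4 := by
      rw [div_mul_eq_mul_div, div_le_iff₀ hG0]
      linarith
    have e8 : 2 / ‖w‖ * (1 - ‖w‖) ≤ 2 := by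
      rw [div_mul_eq_mul_div, div_le_iff₀ (by linarith)]
      linarith
    calc ‖deriv H w‖ * (1 - ‖w‖) ≤ (2 / ‖w‖ + ‖deriv (deriv G) w‖ / ‖deriv G w‖) * (1 - ‖w‖) :=
          mul_le_mul_of_nonneg_right e6 hδ.le
      _ = 2 / ‖w‖ * (1 - ‖w‖) + ‖deriv (deriv G) w‖ / ‖deriv G w‖ * (1 - ‖w‖) := by ring
      _ ≤ 6 := by linarith

end

end Pool.Agent.W677.Mar
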